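import Mathlib

/-!
Word systems: every element of a group gets one word, factor closed and inverse closed.
The combinatorial core of the bound for invariant path systems.
-/

namespace Pool.Agent.N330.PathCore

open Finset

/-- a word system on a group: `w x` is the word of `x`; words are closed under factors
and inverses. -/
structure WordSystem {G : Type*} [Group G] (w : G → List G) : Prop where
  prod : ∀ x, (w x).prod = x
  factor : ∀ x l m r, w x = l ++ m ++ r → w m.prod = m
  inv : ∀ x, w x⁻¹ = ((w x).map (fun a => a⁻¹)).reverse

namespace WordSystem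

variable {G : Type*} [Group G] {w : G → List G}

theorem one (hw : WordSystem w) : w 1 = [] := by
  have := hw.factor 1 (w 1) [] [] (by simp)
  simpa using this

theorem eq_nil_of_factor (hw : WordSystem w) {x : G} {l m r : List G}
    (h : w x = l ++ m ++ r) (hm : m.prod = 1) : m = [] := by
  have := hw.factor x l m r h
  rw [hm, hw.one] at this
  exact this.symm

/-- prefix products -/
def pre (a : List G) (i : ℕ) : G := (a.take i).prod

/-- the part of the list between positions `i` and `j` -/
def seg (a : List G) (i j : ℕ) : List G := (a.take j).drop i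

theorem seg_decomp (a : List G) {i j : ℕ} (hij : i ≤ j) :
    a = a.take i ++ seg a i j ++ a.drop j := by
  unfold seg
  have h1 : a.take i = (a.take j).take i := by
    rw [List.take_take, min_eq_left hij]
  rw [h1, List.take_append_drop, List.take_append_drop]

theorem pre_mul_seg (a : List G) {i j : ℕ} (hij : i ≤ j) :
    pre a i * (seg a i j).prod = pre a j := by
  unfold seg pre
  have h1 : a.take i = (a.take j).take i := by
    rw [List.take_take, min_eq_left hij]
  rw [h1, ← List.prod_append, List.take_append_drop]

theorem word_seg (hw : WordSystem w) (x : G) {i j : ℕ} (hij : i ≤ j) :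
    w (seg (w x) i j).prod = seg (w x) i j :=
  hw.factor x _ _ _ (seg_decomp (w x) hij)

theorem length_seg (a : List G) {i j : ℕ} (hj : j ≤ a.length) :
    (seg a i j).length = j - i := by
  unfold seg
  simp [min_eq_left hj]

theorem head_seg (a : List G) {i j : ℕ} (hij : i < j) (hj : j ≤ a.length) :
    (seg a i j).head? = a[i]? := by
  unfold seg
  rw [List.head?_drop, List.getElem?_take]
  simp [hij]

theorem last_seg (a : List G) {i j : ℕ} (hij : i < j) (hj : j ≤ a.length) :
    (seg a i j).getLast? = a[j-1]? := by
  rw [List.getLast?_eq_getElem?, length_seg a hj]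
  unfold seg
  rw [List.getElem?_drop, List.getElem?_take]
  have h1 : i + (j - i - 1) = j - 1 := by omega
  rw [h1]
  simp; omega

/-- the collision lemma -/
theorem collision (hw : WordSystem w) (x y : G) {i i' j j' : ℕ} (hi : i < i')
    (hi' : i' ≤ (w x).length) (hj : j ≤ (w y).length) (hj' : j' ≤ (w y).length)
    (h : pre (w x) i * (pre (w y) j)⁻¹ = pre (w x) i' * (pre (w y) j')⁻¹) :
    (j < j' ∧ (w x)[i]? = (w y)[j]? ∧ (w x)[i'-1]? = (w y)[j'-1]?) ∨
    (j' < j ∧ (w x)[i]? = ((w y)[j-1]?).map (fun a => a⁻¹) ∧
      (w x)[i'-1]? = ((w y)[j']?).map (fun a => a⁻¹)) := by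
  have hg : (seg (w x) i i').prod = (pre (w y) j)⁻¹ * pre (w y) j' := by
    have h1 := pre_mul_seg (w x) hi.le
    rw [← h1] at h
    have h2 : (pre (w y) j)⁻¹ = (seg (w x) i i').prod * (pre (w y) j')⁻¹ := by
      apply mul_left_cancel (a := pre (w x) i)
      rw [h, mul_assoc]
    rw [h2]; group
  have hx := word_seg hw x hi.le
  have hlen := length_seg (w x) (i := i) hi'
  rcases lt_trichotomy j j' with hlt | heq | hgt
  · left
    have h3 : (seg (w y) j j').prod = (pre (w y) j)⁻¹ * pre (w y) j' := by
      rw [← pre_mul_seg (w y) hlt.le]; group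
    have h4 : seg (w x) i i' = seg (w y) j j' := by
      rw [← hx, hg, ← h3, word_seg hw y hlt.le]
    refine ⟨hlt, ?_, ?_⟩
    · rw [← head_seg (w x) hi hi', h4, head_seg (w y) hlt hj']
    · rw [← last_seg (w x) hi hi', h4, last_seg (w y) hlt hj']
  · exfalso
    subst heq
    rw [inv_mul_cancel] at hg
    rw [hg, hw.one] at hx
    rw [← hx] at hlen
    simp at hlen; omega
  · right
    have h3 : (seg (w y) j' j).prod⁻¹ = (pre (w y) j)⁻¹ * pre (w y) j' := by
      rw [← pre_mul_seg (w y) hgt.le]; group
    have h4 : seg (w x) i i' = ((seg (w y) j' j).map (fun a => a⁻¹)).reverse := by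
      rw [← hx, hg, ← h3, hw.inv, word_seg hw y hgt.le]
    refine ⟨hgt, ?_, ?_⟩
    · rw [← head_seg (w x) hi hi', h4, List.head?_reverse, List.getLast?_map,
        last_seg (w y) hgt hj]
    · rw [← last_seg (w x) hi hi', h4, List.getLast?_reverse, List.head?_map,
        head_seg (w y) hgt hj]

/-- the letter in position `i` (and `1` beyond the end) -/
def ltr (a : List G) (i : ℕ) : G := a.getD i 1

theorem collision' (hw : WordSystem w) (x y : G) {i i' j j' : ℕ} (hi : i < i')
    (hi' : i' ≤ (w x).length) (hj : j ≤ (w y).length) (hj' : j' ≤ (w y).length)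
    (h : pre (w x) i * (pre (w y) j)⁻¹ = pre (w x) i' * (pre (w y) j')⁻¹) :
    (j < j' ∧ ltr (w x) i = ltr (w y) j ∧ ltr (w x) (i'-1) = ltr (w y) (j'-1)) ∨
    (j' < j ∧ ltr (w x) i = (ltr (w y) (j-1))⁻¹ ∧
      ltr (w x) (i'-1) = (ltr (w y) j')⁻¹) := by
  have aux : ∀ (o : Option G), (o.map (fun a => a⁻¹)).getD 1 = (o.getD 1)⁻¹ := by
    intro o; cases o <;> simp
  unfold ltr
  simp only [List.getD_eq_getElem?_getD]
  rcases hw.collision x y hi hi' hj hj' h with ⟨h1, h2, h3⟩ | ⟨h1, h2, h3⟩
  · left; exact ⟨h1, by rw [h2], by rw [h3]⟩
  · right; exact ⟨h1, by rw [h2, aux], by rw [h3, aux]⟩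

theorem pre_inj (hw : WordSystem w) (x : G) {i j : ℕ} (hi : i ≤ (w x).length)
    (hj : j ≤ (w x).length) (h : pre (w x) i = pre (w x) j) : i = j := by
  have key : ∀ i j : ℕ, i ≤ j → j ≤ (w x).length → pre (w x) i = pre (w x) j → i = j := by
    intro i j hij hj h
    have h1 := pre_mul_seg (w x) hij
    rw [h] at h1
    have h2 : (seg (w x) i j).prod = 1 := by simpa using h1
    have h3 := hw.word_seg x hij
    rw [h2, hw.one] at h3
    have h4 := length_seg (w x) (i := i) hj
    rw [← h3] at h4
    simp at h4; omega
  rcases le_total i j with hij | hij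
  · exact key i j hij hj h
  · exact (key j i hij hi h.symm).symm

variable [DecidableEq G]

/-- number of positions of the letter `s` -/
def cnt (a : List G) (s : G) : ℕ := ((range a.length).filter (fun j => ltr a j = s)).card

theorem heavy [Fintype G] (hw : WordSystem w) (x : G) :
    ((w x).length + 1) ^ 2 ≤ Fintype.card G +
      ∑ i ∈ range (w x).length,
        (cnt (w x) (ltr (w x) i) + cnt (w x) (ltr (w x) i)⁻¹) := by
  set a := w x with ha
  set n := a.length with hn
  let good : ℕ × ℕ → Prop := fun p => 1 ≤ p.1 ∧ ((1 ≤ p.2 ∧ ltr a (p.1-1) = ltr a (p.2-1)) ∨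
    (p.2 < n ∧ ltr a (p.1-1) = (ltr a p.2)⁻¹))
  let grid : Finset (ℕ × ℕ) := range (n+1) ×ˢ range (n+1)
  have hgrid : grid.card = (n+1)^2 := by simp [grid, sq]
  have hsplit : (grid.filter good).card + (grid.filter (fun p => ¬ good p)).card = grid.card :=
    Finset.card_filter_add_card_filter_not _
  have hbad : (grid.filter (fun p => ¬ good p)).card ≤ Fintype.card G := by
    rw [← Finset.card_univ]
    apply Finset.card_le_card_of_injOn (fun p => pre a p.1 * (pre a p.2)⁻¹)
    · intro p _; simp
    · have key : ∀ p q : ℕ × ℕ, p ∈ grid.filter (fun p => ¬ good p) →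
          q ∈ grid.filter (fun p => ¬ good p) →
          pre a p.1 * (pre a p.2)⁻¹ = pre a q.1 * (pre a q.2)⁻¹ → p.1 ≤ q.1 → p = q := by
        rintro ⟨i, j⟩ ⟨i', j'⟩ hp hq h hle
        simp only [grid, Finset.mem_filter, Finset.mem_product, Finset.mem_range] at hp hq
        obtain ⟨⟨hi, hj⟩, -⟩ := hp
        obtain ⟨⟨hi', hj'⟩, hq⟩ := hq
        dsimp only at h hle hi hj hi' hj' hq
        rcases hle.lt_or_eq with hlt | heq
        · exfalso
          apply hq
          refine ⟨by simp only; omega, ?_⟩
          rcases hw.collision' x x hlt (by rw [← ha]; omega) (by rw [← ha]; omega)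
            (by rw [← ha]; omega) h with ⟨h1, -, h3⟩ | ⟨h1, -, h3⟩
          · left; exact ⟨by simp only; omega, h3⟩
          · right; exact ⟨by simp only; omega, h3⟩
        · subst heq
          have h1 : pre a j = pre a j' := by simpa using h
          have h2 := hw.pre_inj x (i := j) (j := j') (by rw [← ha]; omega)
            (by rw [← ha]; omega) h1
          rw [h2]
      intro p hp q hq h
      rcases le_total p.1 q.1 with hle | hle
      · exact key p q hp hq h hle
      · exact (key q p hq hp h.symm hle).symm
  have hgood : (grid.filter good).card ≤ ∑ i ∈ range n, (cnt a (ltr a i) + cnt a (ltr a i)⁻¹) := by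
    let A : Finset (ℕ × ℕ) := (range n ×ˢ range n).filter (fun p => ltr a p.2 = ltr a p.1)
    let B : Finset (ℕ × ℕ) := (range n ×ˢ range n).filter (fun p => ltr a p.2 = (ltr a p.1)⁻¹)
    have hsub : grid.filter good ⊆
        A.image (fun p => (p.1+1, p.2+1)) ∪ B.image (fun p => (p.1+1, p.2)) := by
      rintro ⟨i, j⟩ hp
      simp only [grid, Finset.mem_filter, Finset.mem_product, Finset.mem_range, good] at hp
      obtain ⟨⟨hi, hj⟩, h1, h2 | h2⟩ := hp
      · apply Finset.mem_union_left
        rw [Finset.mem_image]
        refine ⟨(i-1, j-1), ?_, ?_⟩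
        · simp only [A, Finset.mem_filter, Finset.mem_product, Finset.mem_range]
          exact ⟨⟨by omega, by omega⟩, h2.2.symm⟩
        · ext <;> simp only <;> omega
      · apply Finset.mem_union_right
        rw [Finset.mem_image]
        refine ⟨(i-1, j), ?_, ?_⟩
        · simp only [B, Finset.mem_filter, Finset.mem_product, Finset.mem_range]
          exact ⟨⟨by omega, by omega⟩, by rw [h2.2, inv_inv]⟩
        · ext <;> simp only <;> omega
    have hA : A.card = ∑ i ∈ range n, cnt a (ltr a i) := by
      simp only [A, cnt]
      rw [Finset.card_filter, Finset.sum_product]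
      apply Finset.sum_congr rfl
      intro i _
      rw [Finset.card_filter]
    have hB : B.card = ∑ i ∈ range n, cnt a (ltr a i)⁻¹ := by
      simp only [B, cnt]
      rw [Finset.card_filter, Finset.sum_product]
      apply Finset.sum_congr rfl
      intro i _
      rw [Finset.card_filter]
    calc (grid.filter good).card ≤ _ := Finset.card_le_card hsub
      _ ≤ _ := Finset.card_union_le _ _
      _ ≤ A.card + B.card := Nat.add_le_add Finset.card_image_le Finset.card_image_le
      _ = _ := by rw [hA, hB, Finset.sum_add_distrib]
  omega

/-- number of positions with a letter outside `H` -/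
def out (H : Finset G) (a : List G) : ℕ :=
  ((range a.length).filter (fun j => ltr a j ∉ H)).card

theorem few_out [Fintype G] (hw : WordSystem w) (H : Finset G) (hH : ∀ c ∈ H, c⁻¹ ∈ H) (x y : G) :
    ((w x).length + 1) * out H (w y) ≤ Fintype.card G + 2 * out H (w x) * out H (w y) := by
  set a := w x with ha
  set b := w y with hb
  let I : Finset ℕ := (range (a.length+1)).filter
    (fun i => (1 ≤ i → ltr a (i-1) ∈ H) ∧ (i < a.length → ltr a i ∈ H))
  let J : Finset ℕ := (range b.length).filter (fun j => ltr b j ∉ H)
  have hJ : J.card = out H b := rfl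
  have hI : a.length + 1 ≤ I.card + 2 * out H a := by
    have h1 : I.card + ((range (a.length+1)).filter
      (fun i => ¬ ((1 ≤ i → ltr a (i-1) ∈ H) ∧ (i < a.length → ltr a i ∈ H)))).card =
        (range (a.length+1)).card := Finset.card_filter_add_card_filter_not _
    rw [Finset.card_range] at h1
    have h2 : ((range (a.length+1)).filter
      (fun i => ¬ ((1 ≤ i → ltr a (i-1) ∈ H) ∧ (i < a.length → ltr a i ∈ H)))).card ≤
        2 * out H a := by
      have hsub : (range (a.length+1)).filter
          (fun i => ¬ ((1 ≤ i → ltr a (i-1) ∈ H) ∧ (i < a.length → ltr a i ∈ H))) ⊆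
          ((range a.length).filter (fun j => ltr a j ∉ H)).image (fun j => j + 1) ∪
            (range a.length).filter (fun j => ltr a j ∉ H) := by
        intro i hi
        rw [Finset.mem_filter, Finset.mem_range] at hi
        obtain ⟨hi, h⟩ := hi
        rw [not_and_or] at h
        push Not at h
        rcases h with h | h
        · apply Finset.mem_union_left
          rw [Finset.mem_image]
          exact ⟨i-1, by simp only [Finset.mem_filter, Finset.mem_range]; exact ⟨by omega, h.2⟩,
            by omega⟩
        · apply Finset.mem_union_right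
          simp only [Finset.mem_filter, Finset.mem_range]
          exact h
      calc _ ≤ _ := Finset.card_le_card hsub
        _ ≤ _ := Finset.card_union_le _ _
        _ ≤ out H a + out H a := Nat.add_le_add Finset.card_image_le le_rfl
        _ = _ := by ring
    omega
  have hinj : (I ×ˢ J).card ≤ Fintype.card G := by
    rw [← Finset.card_univ]
    apply Finset.card_le_card_of_injOn (fun p => pre a p.1 * (pre b (p.2+1))⁻¹)
    · intro p _; simp
    · have key : ∀ p q : ℕ × ℕ, p ∈ I ×ˢ J → q ∈ I ×ˢ J →
          pre a p.1 * (pre b (p.2+1))⁻¹ = pre a q.1 * (pre b (q.2+1))⁻¹ → p.1 ≤ q.1 → p = q := by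
        rintro ⟨i, j⟩ ⟨i', j'⟩ hp hq h hle
        simp only [I, J, Finset.mem_filter, Finset.mem_product, Finset.mem_range] at hp hq
        obtain ⟨⟨hi, hi1, hi2⟩, hj, hj1⟩ := hp
        obtain ⟨⟨hi', hi'1, hi'2⟩, hj', hj'1⟩ := hq
        dsimp only at h hle
        rcases hle.lt_or_eq with hlt | heq
        · exfalso
          rcases hw.collision' x y hlt (by rw [← ha]; omega) (by rw [← hb]; omega)
            (by rw [← hb]; omega) h with ⟨h1, -, h3⟩ | ⟨h1, h2, -⟩
          · rw [← ha, ← hb] at h3
            apply hj'1
            have := hi'1 (by omega)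
            rw [h3] at this
            simpa using this
          · rw [← ha, ← hb] at h2
            apply hj1
            have := hi2 (by omega)
            rw [h2] at this
            have := hH _ this
            simpa using this
        · subst heq
          have h1 : pre b (j+1) = pre b (j'+1) := by simpa using h
          have h2 := hw.pre_inj y (i := j+1) (j := j'+1) (by rw [← hb]; omega)
            (by rw [← hb]; omega) h1
          have h3 : j = j' := by omega
          rw [h3]
      intro p hp q hq h
      rcases le_total p.1 q.1 with hle | hle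
      · exact key p q hp hq h hle
      · exact (key q p hq hp h.symm hle).symm
  rw [Finset.card_product, hJ] at hinj
  calc (a.length + 1) * out H b ≤ (I.card + 2 * out H a) * out H b := Nat.mul_le_mul_right _ hI
    _ = I.card * out H b + 2 * out H a * out H b := by ring
    _ ≤ _ := Nat.add_le_add_right hinj _

theorem pre_succ (a : List G) {i : ℕ} (hi : i < a.length) :
    pre a (i+1) = pre a i * ltr a i := by
  unfold pre ltr
  rw [List.prod_take_succ a i hi, List.getD_eq_getElem _ _ hi]

theorem no_double (hw : WordSystem w) (x : G) (s : G) (hs : s * s = 1) {j : ℕ}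
    (hj : j + 1 < (w x).length) (h1 : ltr (w x) j = s) : ltr (w x) (j+1) ≠ s := by
  intro h2
  have h3 := pre_succ (w x) hj
  rw [pre_succ (w x) (by omega : j < (w x).length), h1, h2, mul_assoc, hs, mul_one] at h3
  have h4 := hw.pre_inj x (i := j+1+1) (j := j) (by omega) (by omega) h3
  omega

theorem cnt_involution (hw : WordSystem w) (x : G) (s : G) (hs : s * s = 1) :
    2 * cnt (w x) s ≤ (w x).length + 1 := by
  set a := w x with ha
  let A := (range a.length).filter (fun j => ltr a j = s)
  have hA : A.card = cnt a s := rfl
  have h1 : (A.image (fun j => j + 1)).card = A.card :=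
    Finset.card_image_of_injective _ (fun i j h => by simpa using h)
  have h2 : Disjoint A (A.image (fun j => j+1)) := by
    rw [Finset.disjoint_left]
    intro j hj hj'
    rw [Finset.mem_image] at hj'
    obtain ⟨i, hi, rfl⟩ := hj'
    simp only [A, Finset.mem_filter, Finset.mem_range] at hi hj
    exact hw.no_double x s hs hj.1 hi.2 hj.2
  have h3 : (A ∪ A.image (fun j => j+1)).card ≤ (range (a.length+1)).card := by
    apply Finset.card_le_card
    intro j hj
    rw [Finset.mem_union, Finset.mem_image] at hj
    rw [Finset.mem_range]
    rcases hj with hj | ⟨i, hi, rfl⟩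
    · simp only [A, Finset.mem_filter, Finset.mem_range] at hj; omega
    · simp only [A, Finset.mem_filter, Finset.mem_range] at hi; omega
  rw [Finset.card_union_of_disjoint h2, h1, Finset.card_range, hA] at h3
  omega

theorem cnt_pair (a : List G) {s t : G} (hst : s ≠ t) :
    cnt a s + cnt a t + out {s, t} a = a.length := by
  have h1 : ((range a.length).filter (fun j => ltr a j ∈ ({s, t} : Finset G))).card +
      out {s, t} a = a.length := by
    have := Finset.card_filter_add_card_filter_not (s := range a.length)
      (fun j => ltr a j ∈ ({s, t} : Finset G))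
    rw [Finset.card_range] at this
    exact this
  have h2 : ((range a.length).filter (fun j => ltr a j ∈ ({s, t} : Finset G))).card =
      cnt a s + cnt a t := by
    unfold cnt
    rw [← Finset.card_union_of_disjoint, ← Finset.filter_or]
    · congr 1
      ext j; simp
    · rw [Finset.disjoint_filter]
      intro j _ h1 h2
      exact hst (h1.symm.trans h2)
  omega

theorem exists_heavy [Fintype G] (hw : WordSystem w) (x : G)
    (hx : 9 * Fintype.card G < (w x).length ^ 2) :
    ∃ s t : G, s ≠ t ∧ ((t = s⁻¹) ∨ (s * s = 1 ∧ t * t = 1)) ∧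
      6 * out {s, t} (w x) < (w x).length := by
  have hheavy := hw.heavy x
  have hN : 0 < Fintype.card G := Fintype.card_pos
  have hdbl := hw.cnt_involution x
  set a := w x with ha
  set n := a.length with hn
  have hn0 : 0 < n := by
    rcases Nat.eq_zero_or_pos n with h | h
    · rw [h] at hx; simp at hx
    · exact h
  -- first letter
  obtain ⟨i, hi, hFi⟩ : ∃ i ∈ range n, 8 * n < 9 * (cnt a (ltr a i) + cnt a (ltr a i)⁻¹) := by
    by_contra hcon
    push Not at hcon
    have h1 : ∑ i ∈ range n, 9 * (cnt a (ltr a i) + cnt a (ltr a i)⁻¹) ≤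
        (range n).card • (8 * n) := Finset.sum_le_card_nsmul _ _ _ hcon
    rw [← Finset.mul_sum, Finset.card_range, smul_eq_mul] at h1
    nlinarith
  set s := ltr a i with hs
  by_cases hss : s = s⁻¹
  · have hss1 : s * s = 1 := by
      nth_rewrite 2 [hss]; simp
    rw [← hss] at hFi
    have hc := hdbl s hss1
    set c := cnt a s with hcdef
    obtain ⟨k, hk, hFk⟩ : ∃ k ∈ (range n).filter (fun j => ¬ ltr a j = s),
        7 * n < 9 * (cnt a (ltr a k) + cnt a (ltr a k)⁻¹) := by
      by_contra hcon
      push Not at hcon
      have h1 : ∑ i ∈ (range n).filter (fun j => ¬ ltr a j = s),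
          9 * (cnt a (ltr a i) + cnt a (ltr a i)⁻¹) ≤
          ((range n).filter (fun j => ¬ ltr a j = s)).card • (7 * n) :=
        Finset.sum_le_card_nsmul _ _ _ hcon
      rw [← Finset.mul_sum, smul_eq_mul] at h1
      have h2 : ∑ i ∈ (range n).filter (fun j => ltr a j = s),
          (cnt a (ltr a i) + cnt a (ltr a i)⁻¹) = c * (c + c) := by
        rw [Finset.sum_congr rfl (g := fun _ => c + c)]
        · rw [Finset.sum_const, smul_eq_mul]; rfl
        · intro j hj
          rw [Finset.mem_filter] at hj
          rw [hj.2, ← hss]
      have h3 := Finset.sum_filter_add_sum_filter_not (range n) (fun j => ltr a j = s)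
        (fun i => cnt a (ltr a i) + cnt a (ltr a i)⁻¹)
      have h4 : c + ((range n).filter (fun j => ¬ ltr a j = s)).card = n := by
        have := Finset.card_filter_add_card_filter_not (s := range n) (fun j => ltr a j = s)
        rw [Finset.card_range] at this
        exact this
      set d := ((range n).filter (fun j => ¬ ltr a j = s)).card with hd
      rw [h2] at h3
      rw [← h3] at hheavy
      have h5 : 9 * (n+1)^2 ≤ 9 * Fintype.card G + 9 * (c * (c + c)) + d * (7 * n) := by
        nlinarith
      nlinarith
    rw [Finset.mem_filter] at hk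
    set t := ltr a k with ht
    have hts : t ≠ s := hk.2
    by_cases htt : t = t⁻¹
    · rw [← htt] at hFk
      have htt1 : t * t = 1 := by
        nth_rewrite 2 [htt]; simp
      refine ⟨s, t, hts.symm, Or.inr ⟨hss1, htt1⟩, ?_⟩
      have := cnt_pair a hts.symm
      omega
    · exfalso
      -- three different letters
      have h1 : t⁻¹ ≠ s := by
        intro h
        apply hts
        rw [← inv_inv t, h, ← hss]
      have h2 := cnt_pair a htt
      have h3 : cnt a s ≤ out {t, t⁻¹} a := by
        unfold cnt out
        apply Finset.card_le_card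
        intro j hj
        rw [Finset.mem_filter] at hj ⊢
        refine ⟨hj.1, ?_⟩
        rw [hj.2]
        simp only [Finset.mem_insert, Finset.mem_singleton, not_or]
        exact ⟨hts.symm, h1.symm⟩
      omega
  · refine ⟨s, s⁻¹, hss, Or.inl rfl, ?_⟩
    have := cnt_pair a hss
    omega

/-! ### the language and the metric -/

/-- membership in the language -/
def Lg (w : G → List G) (u : List G) : Prop := w u.prod = u

omit [DecidableEq G] in
theorem lg_word (hw : WordSystem w) (x : G) : Lg w (w x) := by
  unfold Lg; rw [hw.prod]

omit [DecidableEq G] in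
theorem Lg.factor (hw : WordSystem w) {l m r : List G} (h : Lg w (l ++ m ++ r)) : Lg w m :=
  hw.factor _ l m r h

omit [DecidableEq G] in
theorem Lg.nil (hw : WordSystem w) : Lg w [] := by
  unfold Lg; simpa using hw.one

omit [DecidableEq G] in
theorem Lg.inv (hw : WordSystem w) {u : List G} (h : Lg w u) :
    Lg w (u.map (fun a => a⁻¹)).reverse := by
  unfold Lg at *
  rw [← List.prod_inv_reverse, hw.inv, h]

omit [DecidableEq G] in
theorem Lg.chain (hw : WordSystem w) : ∀ {u : List G}, Lg w u → u.IsChain (fun c d => c * d ≠ 1)
  | [], _ => List.IsChain.nil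
  | [c], _ => List.IsChain.singleton c
  | c :: d :: u, h => by
    rw [List.isChain_cons_cons]
    refine ⟨?_, Lg.chain hw (u := d :: u) (Lg.factor hw (l := [c]) (r := []) (by simpa using h))⟩
    intro hcd
    have h1 : Lg w [c, d] := Lg.factor hw (l := []) (r := u) (by simpa using h)
    unfold Lg at h1
    have h2 : [c, d].prod = 1 := by simpa using hcd
    rw [h2, hw.one] at h1
    exact absurd h1 (by simp)

omit [Group G] [DecidableEq G] in
/-- chains over a set where the next letter is determined -/
theorem prefix_of_chain {R : G → G → Prop} {H : Finset G}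
    (hR : ∀ c ∈ H, ∀ d ∈ H, ∀ e ∈ H, R c d → R c e → d = e) :
    ∀ (u U : List G), (∀ c ∈ u, c ∈ H) → (∀ c ∈ U, c ∈ H) → u.IsChain R → U.IsChain R →
      u.head? = U.head? → u.length ≤ U.length → ∃ r, U = u ++ r
  | [], U, _, _, _, _, _, _ => ⟨U, rfl⟩
  | c :: u, [], _, _, _, _, h, _ => by simp at h
  | [c], c' :: U, _, _, _, _, h, _ => by
    simp at h; subst h; exact ⟨U, rfl⟩
  | c :: d :: u, [c'], _, _, _, _, _, h => by simp at h
  | c :: d :: u, c' :: e :: U, hu, hU, hcu, hcU, hh, hl => by
    simp only [List.head?_cons, Option.some.injEq] at hh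
    subst hh
    rw [List.isChain_cons_cons] at hcu hcU
    have hde : d = e := hR c (hu c (by simp)) d (hu d (by simp)) e (hU e (by simp)) hcu.1 hcU.1
    subst hde
    obtain ⟨r, hr⟩ := prefix_of_chain hR (d :: u) (d :: U) (fun x hx => hu x (by simp at hx ⊢; tauto))
      (fun x hx => hU x (by simp at hx ⊢; tauto)) hcu.2 hcU.2 rfl (by simpa using hl)
    exact ⟨r, by rw [hr]; rfl⟩

/-- reduced words over `H` shorter than the longest `H`-word of the language are in the language -/
theorem short_mem (hw : WordSystem w) {s t : G} (hst : s ≠ t)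
    (htype : (t = s⁻¹) ∨ (s * s = 1 ∧ t * t = 1)) {U : List G} (hU : Lg w U)
    (hUH : ∀ c ∈ U, c ∈ ({s, t} : Finset G)) (u : List G)
    (huH : ∀ c ∈ u, c ∈ ({s, t} : Finset G)) (huc : u.IsChain (fun c d => c * d ≠ 1))
    (hlen : u.length < U.length) : Lg w u := by
  have hR : ∀ c ∈ ({s, t} : Finset G), ∀ d ∈ ({s, t} : Finset G), ∀ e ∈ ({s, t} : Finset G),
      c * d ≠ 1 → c * e ≠ 1 → d = e := by
    intro c hc d hd e he h1 h2
    simp only [Finset.mem_insert, Finset.mem_singleton] at hc hd he
    rcases htype with h | ⟨h3, h4⟩
    · subst h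
      rcases hc with rfl | rfl <;> rcases hd with rfl | rfl <;> rcases he with rfl | rfl <;>
        simp_all
    · rcases hc with rfl | rfl <;> rcases hd with rfl | rfl <;> rcases he with rfl | rfl <;>
        simp_all
  have hUc := Lg.chain hw hU
  match u, U, huH, huc, hlen, hU, hUH, hUc with
  | [], U, _, _, _, _, _, _ => exact Lg.nil hw
  | d :: u, [], _, _, hlen, _, _, _ => simp at hlen
  | d :: u, c :: U, huH, huc, hlen, hU, hUH, hUc =>
    by_cases hdc : d = c
    · obtain ⟨r, hr⟩ := prefix_of_chain hR (d :: u) (c :: U) huH hUH huc hUc (by simp [hdc])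
        (by omega)
      rw [hr] at hU
      exact Lg.factor hw (l := []) (r := r) (by simpa using hU)
    · have hdH := huH d (by simp)
      have hcH := hUH c (by simp)
      rcases htype with h | ⟨h3, h4⟩
      · -- one class of order at least three
        have hdc' : d = c⁻¹ := by
          subst h
          simp only [Finset.mem_insert, Finset.mem_singleton] at hdH hcH
          rcases hdH with rfl | rfl <;> rcases hcH with rfl | rfl <;> simp_all
        have hcc : c * c ≠ 1 := by
          subst h
          simp only [Finset.mem_insert, Finset.mem_singleton] at hcH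
          rcases hcH with rfl | rfl
          · intro h; exact hst (eq_inv_of_mul_eq_one_left h)
          · intro h; exact hst (by simpa using (eq_inv_of_mul_eq_one_left h).symm)
        have hrep : ∀ k : ℕ, (List.replicate k c).IsChain (fun c d => c * d ≠ 1) := by
          intro k
          induction k with
          | zero => exact List.IsChain.nil
          | succ k ih =>
            cases k with
            | zero => exact List.IsChain.singleton c
            | succ k =>
              rw [List.replicate_succ, List.replicate_succ, List.isChain_cons_cons]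
              rw [List.replicate_succ] at ih
              exact ⟨hcc, ih⟩
        obtain ⟨r, hr⟩ := prefix_of_chain hR (List.replicate (U.length+1) c) (c :: U)
          (fun x hx => by rw [List.eq_of_mem_replicate hx]; exact hcH) hUH (hrep _) hUc
          (by simp [List.replicate_succ]) (by simp)
        have hr0 : r = [] := by
          have := congrArg List.length hr
          simp at this
          exact this
        rw [hr0, List.append_nil] at hr
        have hV := Lg.inv hw hU
        rw [hr, List.map_replicate, List.reverse_replicate] at hV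
        have hVH : ∀ x ∈ List.replicate (U.length+1) c⁻¹, x ∈ ({s, t} : Finset G) := by
          intro x hx
          rw [List.eq_of_mem_replicate hx, ← hdc']; exact hdH
        obtain ⟨r', hr'⟩ := prefix_of_chain hR (d :: u) (List.replicate (U.length+1) c⁻¹) huH hVH
          huc (Lg.chain hw hV) (by simp [List.replicate_succ, hdc']) (by simpa using hlen.le)
        rw [hr'] at hV
        exact Lg.factor hw (l := []) (r := r') (by simpa using hV)
      · match U, hlen, hU, hUH, hUc with
        | [], hlen, _, _, _ => simp at hlen
        | e :: U, hlen, hU, hUH, hUc =>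
          rw [List.isChain_cons_cons] at hUc
          have heH := hUH e (by simp)
          have hde : d = e := by
            have hce := hUc.1
            simp only [Finset.mem_insert, Finset.mem_singleton] at hdH hcH heH
            rcases hcH with h | h
            · rcases hdH with h' | h'
              · exact absurd (h'.trans h.symm) hdc
              · rcases heH with h'' | h''
                · exact absurd (by rw [h, h'']; exact h3) hce
                · rw [h', h'']
            · rcases hdH with h' | h'
              · rcases heH with h'' | h''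
                · rw [h', h'']
                · exact absurd (by rw [h, h'']; exact h4) hce
              · exact absurd (h'.trans h.symm) hdc
          obtain ⟨r, hr⟩ := prefix_of_chain hR (d :: u) (e :: U) huH
            (fun x hx => hUH x (by simp at hx ⊢; tauto)) huc hUc.2 (by simp [hde])
            (by simp at hlen ⊢; omega)
          rw [hr] at hU
          exact Lg.factor hw (l := [c]) (r := r) (by simpa using hU)

omit [Group G] in
theorem out_cons' [Group G] (H : Finset G) (c : G) (u : List G) :
    out H (c :: u) = (if c ∉ H then 1 else 0) + out H u := by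
  unfold out
  rw [Finset.card_filter, Finset.card_filter, List.length_cons, Finset.sum_range_succ', add_comm]
  congr 1

/-- weights: `0` for `1`, `1` on `H`, `K` elsewhere -/
def wt (H : Finset G) (K : ℕ) (c : G) : ℕ := if c = 1 then 0 else if c ∈ H then 1 else K

theorem wt_le (H : Finset G) {K : ℕ} (hK : 1 ≤ K) (c : G) : wt H K c ≤ K := by
  unfold wt; split_ifs <;> omega

theorem wt_mem {H : Finset G} {K : ℕ} {c : G} (hc : c ∈ H) : wt H K c ≤ 1 := by
  unfold wt; split_ifs <;> omega

theorem wt_not_mem {H : Finset G} {K : ℕ} {c : G} (hc : c ∉ H) (h1 : c ≠ 1) : wt H K c = K := by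
  unfold wt; rw [if_neg h1, if_neg hc]

theorem weight_word (hw : WordSystem w) (H : Finset G) {K : ℕ} (hK : 1 ≤ K)
    (hmax : ∀ u, Lg w u → (∀ c ∈ u, c ∈ H) → u.length ≤ K) :
    ∀ (v p : List G), (∀ c ∈ p, c ∈ H) → Lg w (p ++ v) →
      (v.map (wt H K)).sum + p.length ≤ K * (2 * out H v + 1)
  | [], p, hp, hL => by
    have h0 : out H ([] : List G) = 0 := by simp [out]
    rw [h0]
    have := hmax p (by simpa using hL) hp
    simp; omega
  | c :: v, p, hp, hL => by
    by_cases hc : c ∈ H
    · have h1 := weight_word hw H hK hmax v (p ++ [c])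
        (by intro x hx; rw [List.mem_append, List.mem_singleton] at hx
            rcases hx with hx | rfl
            · exact hp x hx
            · exact hc) (by simpa using hL)
      rw [out_cons', if_neg (not_not.mpr hc)]
      have h2 := wt_mem (K := K) hc
      simp only [List.map_cons, List.sum_cons, List.length_append, List.length_singleton] at h1 ⊢
      rw [zero_add]
      omega
    · have hp' := hmax p (Lg.factor hw (l := []) (r := c :: v) (by simpa using hL)) hp
      have h1 := weight_word hw H hK hmax v []
        (by simp) (Lg.factor hw (l := p ++ [c]) (r := []) (by simpa using hL))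
      rw [out_cons', if_pos hc]
      have h2 := wt_le H hK c
      simp only [List.map_cons, List.sum_cons, List.length_nil, add_zero] at h1 ⊢
      have h3 : K * (2 * (1 + out H v) + 1) = K * (2 * out H v + 1) + 2 * K := by ring
      omega

theorem cheap_word (hw : WordSystem w) {s t : G} (hst : s ≠ t)
    (htype : (t = s⁻¹) ∨ (s * s = 1 ∧ t * t = 1)) {U : List G} (hU : Lg w U)
    (hUH : ∀ c ∈ U, c ∈ ({s, t} : Finset G)) :
    ∀ l : List G, (l.map (wt {s, t} U.length)).sum < U.length →
      (∀ c ∈ w l.prod, c ∈ ({s, t} : Finset G)) ∧
        (w l.prod).length ≤ (l.map (wt {s, t} U.length)).sum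
  | [], _ => by
    rw [List.prod_nil, hw.one]; simp
  | c :: l, hl => by
    rw [List.map_cons, List.sum_cons] at hl
    obtain ⟨h1, h2⟩ := cheap_word hw hst htype hU hUH l (by omega)
    rw [List.map_cons, List.sum_cons, List.prod_cons]
    by_cases hc1 : c = 1
    · subst hc1
      rw [one_mul]
      exact ⟨h1, by omega⟩
    · by_cases hcH : c ∈ ({s, t} : Finset G)
      · have hwt : wt {s, t} U.length c = 1 := by
          unfold wt; rw [if_neg hc1, if_pos hcH]
        rw [hwt] at hl ⊢
        have hLg := hw.lg_word l.prod
        have hprod := hw.prod l.prod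
        set g := l.prod with hg
        set u := w g with hu
        by_cases hcan : ∃ d v, u = d :: v ∧ c * d = 1
        · obtain ⟨d, v, huv, hcd⟩ := hcan
          have h3 : Lg w v := Lg.factor hw (l := [d]) (r := []) (by
            rw [huv] at hLg; simpa using hLg)
          have h4 : c * g = v.prod := by
            rw [← hprod, huv, List.prod_cons, ← mul_assoc, hcd, one_mul]
          rw [h4, h3]
          rw [huv] at h1 h2
          refine ⟨fun x hx => h1 x (by simp [hx]), ?_⟩
          simp only [List.length_cons] at h2
          omega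
        · have h3 : (c :: u).IsChain (fun c d => c * d ≠ 1) := by
            have h4 := Lg.chain hw hLg
            cases hcase : u with
            | nil => exact List.IsChain.singleton c
            | cons d v =>
              rw [hcase] at h4
              rw [List.isChain_cons_cons]
              exact ⟨fun h => hcan ⟨d, v, hcase, h⟩, h4⟩
          have h5 := short_mem hw hst htype hU hUH (c :: u)
            (by intro x hx
                rw [List.mem_cons] at hx
                rcases hx with rfl | hx
                · exact hcH
                · exact h1 x hx) h3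
            (by simp only [List.length_cons]; omega)
          unfold Lg at h5
          rw [List.prod_cons, hprod] at h5
          rw [h5]
          refine ⟨?_, by simp only [List.length_cons]; omega⟩
          intro x hx
          rw [List.mem_cons] at hx
          rcases hx with rfl | hx
          · exact hcH
          · exact h1 x hx
      · exfalso
        rw [wt_not_mem hcH hc1] at hl
        omega

omit [DecidableEq G] in
theorem sum_rev_inv (f : G → ℕ) (hf : ∀ c, f c⁻¹ = f c) (l : List G) :
    (((l.map (fun a => a⁻¹)).reverse).map f).sum = (l.map f).sum := by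
  induction l with
  | nil => simp
  | cons c l ih =>
    simp only [List.map_cons, List.reverse_cons, List.map_append, List.sum_append, List.sum_cons,
      List.map_nil, List.sum_nil, hf, ih]
    omega

/-- the length function of a weight -/
noncomputable def nrm (f : G → ℕ) (g : G) : ℕ :=
  sInf {k : ℕ | ∃ l : List G, l.prod = g ∧ (l.map f).sum = k}

omit [DecidableEq G] in
theorem nrm_mem (f : G → ℕ) (g : G) : ∃ l : List G, l.prod = g ∧ (l.map f).sum = nrm f g :=
  Nat.sInf_mem (s := {k : ℕ | ∃ l : List G, l.prod = g ∧ (l.map f).sum = k})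
    ⟨f g, [g], by simp, by simp⟩

omit [DecidableEq G] in
theorem nrm_le (f : G → ℕ) (l : List G) : nrm f l.prod ≤ (l.map f).sum :=
  Nat.sInf_le ⟨l, rfl, rfl⟩

omit [DecidableEq G] in
theorem nrm_le_self (f : G → ℕ) (g : G) : nrm f g ≤ f g := by
  have := nrm_le f [g]; simpa using this

omit [DecidableEq G] in
theorem nrm_mul (f : G → ℕ) (g h : G) : nrm f (g * h) ≤ nrm f g + nrm f h := by
  obtain ⟨l, hl, hl'⟩ := nrm_mem f g
  obtain ⟨m, hm, hm'⟩ := nrm_mem f h
  have := nrm_le f (l ++ m)
  rw [List.prod_append, hl, hm, List.map_append, List.sum_append, hl', hm'] at this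
  exact this

omit [DecidableEq G] in
theorem nrm_inv (f : G → ℕ) (hf : ∀ c, f c⁻¹ = f c) (g : G) : nrm f g⁻¹ = nrm f g := by
  have key : ∀ g, nrm f g⁻¹ ≤ nrm f g := by
    intro g
    obtain ⟨l, hl, hl'⟩ := nrm_mem f g
    have := nrm_le f ((l.map (fun a => a⁻¹)).reverse)
    rw [← List.prod_inv_reverse, hl, sum_rev_inv f hf, hl'] at this
    exact this
  apply le_antisymm (key g)
  have := key g⁻¹
  rwa [inv_inv] at this

omit [DecidableEq G] in
theorem nrm_one (f : G → ℕ) : nrm f 1 = 0 := by
  have := nrm_le f []
  simpa using this

omit [DecidableEq G] in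
theorem nrm_pos (f : G → ℕ) (hf : ∀ c, c ≠ 1 → 0 < f c) {g : G} (hg : g ≠ 1) : 0 < nrm f g := by
  obtain ⟨l, hl, hl'⟩ := nrm_mem f g
  rw [← hl']
  by_contra hcon
  have h0 : (l.map f).sum = 0 := by omega
  apply hg
  rw [← hl]
  apply List.prod_eq_one
  intro c hc
  by_contra h1
  have h2 := hf c h1
  have h3 : f c ≤ (l.map f).sum := List.single_le_sum (by simp) _ (List.mem_map_of_mem hc)
  omega

omit [DecidableEq G] in
theorem sum_nrm_le (f : G → ℕ) (l : List G) : (l.map (nrm f)).sum ≤ (l.map f).sum := by
  apply List.sum_le_sum
  intro c _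
  exact nrm_le_self f c

omit [DecidableEq G] in
/-- **the core bound**: there is a length function on `G` for which all words are within the
factor `3 √|G|` of the optimum. -/
theorem core [Fintype G] (hw : WordSystem w) :
    ∃ ν : G → ℝ, ν 1 = 0 ∧ (∀ g, g ≠ 1 → 0 < ν g) ∧ (∀ g, ν g⁻¹ = ν g) ∧
      (∀ g h, ν (g * h) ≤ ν g + ν h) ∧
      ∀ g, ((w g).map ν).sum ≤ 3 * Real.sqrt (Fintype.card G) * ν g := by
  classical
  have hN : 0 < Fintype.card G := Fintype.card_pos
  have hq0 : 1 ≤ Real.sqrt (Fintype.card G) := by
    rw [Real.one_le_sqrt]; exact_mod_cast hN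
  have hq2 : Real.sqrt (Fintype.card G) ^ 2 = Fintype.card G :=
    Real.sq_sqrt (by positivity)
  by_cases hbig : ∃ x : G, 9 * Fintype.card G < (w x).length ^ 2
  · obtain ⟨x, hx⟩ := hbig
    obtain ⟨s, t, hst, htype, hout⟩ := hw.exists_heavy x hx
    have hHinv : ∀ c ∈ ({s, t} : Finset G), c⁻¹ ∈ ({s, t} : Finset G) := by
      intro c hc
      simp only [Finset.mem_insert, Finset.mem_singleton] at hc ⊢
      rcases htype with h | ⟨h1, h2⟩
      · subst h
        rcases hc with rfl | rfl
        · right; rfl
        · left; simp
      · rcases hc with rfl | rfl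
        · left; exact (eq_inv_of_mul_eq_one_left h1).symm
        · right; exact (eq_inv_of_mul_eq_one_left h2).symm
    -- bound for the number of letters outside
    have hR : ∀ g, 2 * (out {s, t} (w g) : ℝ) + 1 ≤ 3 * Real.sqrt (Fintype.card G) := by
      intro g
      have h1 := hw.few_out {s, t} hHinv x g
      have h2 : 2 * (w x).length * out {s, t} (w g) ≤ 3 * Fintype.card G := by
        have h3 : 6 * (out {s, t} (w x) * out {s, t} (w g)) ≤
            (w x).length * out {s, t} (w g) := by
          calc 6 * (out {s, t} (w x) * out {s, t} (w g))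
              = (6 * out {s, t} (w x)) * out {s, t} (w g) := by ring
            _ ≤ _ := Nat.mul_le_mul_right _ hout.le
        nlinarith
      have h2' : 2 * ((w x).length : ℝ) * out {s, t} (w g) ≤ 3 * Fintype.card G := by
        exact_mod_cast h2
      have hx' : 9 * (Fintype.card G : ℝ) < ((w x).length : ℝ) ^ 2 := by exact_mod_cast hx
      set q := Real.sqrt (Fintype.card G) with hq
      set r : ℝ := (out {s, t} (w g) : ℝ) with hr
      set n : ℝ := ((w x).length : ℝ) with hn
      have hr0 : 0 ≤ r := by positivity
      have hn0 : 0 ≤ n := by positivity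
      rw [← hq2] at hx' h2'
      have hnq : 3 * q < n := by
        by_contra hcon
        push Not at hcon
        nlinarith
      have h5 : 2 * r ≤ q := by
        have h6 : 2 * (3 * q) * r ≤ 3 * q ^ 2 := by
          calc 2 * (3 * q) * r ≤ 2 * n * r := by
                apply mul_le_mul_of_nonneg_right _ hr0; linarith
            _ ≤ _ := h2'
        by_contra hcon
        push Not at hcon
        nlinarith
      linarith
    -- the longest `H`-word
    let T : Finset G := univ.filter (fun g => ∀ c ∈ w g, c ∈ ({s, t} : Finset G))
    have hT1 : (1 : G) ∈ T := by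
      simp only [T, Finset.mem_filter, Finset.mem_univ, true_and]
      rw [hw.one]; simp
    obtain ⟨y, hyT, hymax⟩ := Finset.exists_max_image T (fun g => (w g).length) ⟨1, hT1⟩
    have hyH : ∀ c ∈ w y, c ∈ ({s, t} : Finset G) := by
      simp only [T, Finset.mem_filter, Finset.mem_univ, true_and] at hyT
      exact hyT
    have hmax : ∀ u, Lg w u → (∀ c ∈ u, c ∈ ({s, t} : Finset G)) → u.length ≤ (w y).length := by
      intro u hu huH
      have h1 : u.prod ∈ T := by
        simp only [T, Finset.mem_filter, Finset.mem_univ, true_and]
        rw [hu]; exact huH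
      have := hymax _ h1
      rwa [hu] at this
    have hK : 1 ≤ (w y).length := by
      -- a letter of `w x` in `H`
      have h1 : ∃ i < (w x).length, ltr (w x) i ∈ ({s, t} : Finset G) := by
        by_contra hcon
        push Not at hcon
        have h2 : out {s, t} (w x) = (w x).length := by
          unfold out
          rw [Finset.filter_true_of_mem, Finset.card_range]
          intro j hj
          exact hcon j (Finset.mem_range.mp hj)
        omega
      obtain ⟨i, hi, hiH⟩ := h1
      have h2 : Lg w [ltr (w x) i] := by
        have h3 := hw.word_seg x (Nat.le_succ i)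
        have h4 : seg (w x) i (i+1) = [ltr (w x) i] := by
          unfold seg ltr
          rw [List.take_add_one, List.drop_append, List.length_take, min_eq_left hi.le,
            List.drop_eq_nil_of_le (by simp), Nat.sub_self, List.drop_zero, List.nil_append,
            List.getD_eq_getElem _ _ hi, List.getElem?_eq_getElem hi]
          rfl
        unfold Lg
        rw [← h4]; exact h3
      exact hmax _ h2 (by simpa using hiH)
    set K := (w y).length with hKdef
    set f : G → ℕ := wt {s, t} K with hf
    have hfinv : ∀ c, f c⁻¹ = f c := by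
      intro c
      simp only [hf, wt, inv_eq_one]
      have : c⁻¹ ∈ ({s, t} : Finset G) ↔ c ∈ ({s, t} : Finset G) :=
        ⟨fun h => by simpa using hHinv _ h, hHinv c⟩
      simp only [this]
    have hfpos : ∀ c, c ≠ 1 → 0 < f c := by
      intro c hc
      simp only [hf, wt, if_neg hc]
      split_ifs <;> omega
    refine ⟨fun g => (nrm f g : ℝ), by simp [nrm_one], ?_, ?_, ?_, ?_⟩
    · intro g hg
      have := nrm_pos f hfpos hg
      simpa using this
    · intro g; simp only [nrm_inv f hfinv]
    · intro g h
      have := nrm_mul f g h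
      show (nrm f (g * h) : ℝ) ≤ (nrm f g : ℝ) + (nrm f h : ℝ)
      exact_mod_cast this
    · intro g
      have hsum : ((w g).map (fun g => (nrm f g : ℝ))).sum = (((w g).map (nrm f)).sum : ℕ) := by
        rw [Nat.cast_list_sum, List.map_map]; rfl
      rw [hsum]
      have key : ((w g).map (nrm f)).sum ≤ (2 * out {s, t} (w g) + 1) * nrm f g := by
        by_cases hlt : nrm f g < K
        · obtain ⟨l, hl, hl'⟩ := nrm_mem f g
          obtain ⟨h1, h2⟩ := cheap_word hw hst htype (U := w y) (hw.lg_word y) hyH l
            (by rw [hl']; exact hlt)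
          rw [hl, hl'] at h2
          rw [hl] at h1
          calc ((w g).map (nrm f)).sum ≤ ((w g).map f).sum := sum_nrm_le f _
            _ ≤ ((w g).map (fun _ => 1)).sum := by
                apply List.sum_le_sum
                intro c hc
                exact wt_mem (h1 c hc)
            _ = (w g).length := by simp
            _ ≤ nrm f g := h2
            _ ≤ _ := Nat.le_mul_of_pos_left _ (by omega)
        · push Not at hlt
          have h1 := weight_word hw {s, t} hK hmax (w g) [] (by simp)
            (by simpa using hw.lg_word g)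
          rw [List.length_nil, add_zero] at h1
          calc ((w g).map (nrm f)).sum ≤ ((w g).map f).sum := sum_nrm_le f _
            _ ≤ K * (2 * out {s, t} (w g) + 1) := h1
            _ ≤ nrm f g * (2 * out {s, t} (w g) + 1) := Nat.mul_le_mul_right _ hlt
            _ = _ := by ring
      calc ((((w g).map (nrm f)).sum : ℕ) : ℝ)
          ≤ (((2 * out {s, t} (w g) + 1) * nrm f g : ℕ) : ℝ) := by exact_mod_cast key
        _ = (2 * (out {s, t} (w g) : ℝ) + 1) * nrm f g := by push_cast; ring
        _ ≤ _ := mul_le_mul_of_nonneg_right (hR g) (by positivity)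
  · push Not at hbig
    refine ⟨fun g => if g = 1 then 0 else 1, by simp, ?_, ?_, ?_, ?_⟩
    · intro g hg; simp [hg]
    · intro g; simp
    · intro g h
      by_cases hg : g = 1
      · simp [hg]
      · by_cases hh : h = 1
        · simp [hh]
        · simp only [hg, hh, if_false]
          split_ifs <;> norm_num
    · intro g
      by_cases hg : g = 1
      · subst hg; rw [hw.one]; simp
      · simp only [hg, if_false, mul_one]
        have h1 : ((w g).map (fun g : G => if g = 1 then (0:ℝ) else 1)).sum ≤ (w g).length := by
          calc _ ≤ ((w g).map (fun _ => (1:ℝ))).sum := by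
                apply List.sum_le_sum
                intro c _
                split_ifs <;> norm_num
            _ = _ := by simp
        have h2 : ((w g).length : ℝ) ^ 2 ≤ 9 * Fintype.card G := by exact_mod_cast hbig g
        have h3 : ((w g).length : ℝ) ≤ 3 * Real.sqrt (Fintype.card G) := by
          apply le_of_sq_le_sq _ (by positivity)
          rw [mul_pow, hq2]; linarith
        linarith

end WordSystem

end Pool.Agent.N330.PathCore
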